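import Mathlib

set_option autoImplicit false

/-!
# Algorithms which multiply matrices and read the first matrix row by row: definitions

An algorithm opens the rows of the first matrix `A` one after the other (instruction `read i`) and
writes the rows of the product `A B` (instruction `write i`). A row `i` is open from the moment when
it is read until the moment when the row `i` of the product is written; then it is closed. Entries
of `A` can be used only in rows which have been read. All rational functions of the entries of `B`
and of the closed rows are free, so this includes every preprocessing of the second matrix.
-/

namespace Pool.Agent.L5helper60.LA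

open MvPolynomial Finset

universe u

/-- The variables: `inl (i, j)` stands for the entry in the position `(i, j)` of the first matrix
and `inr (j, k)` for the entry in the position `(j, k)` of the second matrix. -/
abbrev Var (n : ℕ) := (Fin n × Fin n) ⊕ (Fin n × Fin n)

/-- The values of the variables if the matrices are `A` and `B`. -/
def point {K : Type u} {n : ℕ} (A B : Matrix (Fin n) (Fin n) K) : Var n → K
  | .inl p => A p.1 p.2
  | .inr p => B p.1 p.2

/-- An operand: a rational function `num / den`, plus a linear combination, with coefficients in
the field `K`, of the entries of the first matrix and of the results of the multiplications and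
divisions made before. -/
structure Operand (K : Type u) [Field K] (n : ℕ) where
  /-- the numerator of the rational function -/
  num : MvPolynomial (Var n) K
  /-- the denominator of the rational function -/
  den : MvPolynomial (Var n) K
  /-- the coefficients of the entries of the first matrix -/
  a : Fin n → Fin n → K
  /-- the coefficients of the results -/
  b : ℕ → K

section

variable {K : Type u} [Field K] {n : ℕ}

/-- The value of the operand if the matrices are `A` and `B` and `g 0, …, g (l - 1)` are the
results of the multiplications and divisions made before. -/
noncomputable def Operand.val (f : Operand K n) (A B : Matrix (Fin n) (Fin n) K) (l : ℕ)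
    (g : ℕ → K) : K :=
  eval (point A B) f.num / eval (point A B) f.den + (∑ i, ∑ j, f.a i j * A i j) +
    ∑ s ∈ range l, f.b s * g s

/-- The operand can be used when the rows in `R` have been read and the rows in `W` are closed: the
rational function involves only the entries of the second matrix and of the closed rows of the
first matrix, and only entries in the rows in `R` have coefficients different from zero. -/
def Operand.Usable (f : Operand K n) (R W : Finset (Fin n)) : Prop :=
  (∀ i j, Sum.inl (i, j) ∈ f.num.vars ∪ f.den.vars → i ∈ W) ∧ ∀ i j, f.a i j ≠ 0 → i ∈ R

end

/-- A probabilistic algorithm which multiplies two `n × n` matrices over `K`. It can stop, read a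
row of the first matrix, write a row of the product, multiply or divide two operands, ask an
arbitrary yes-no question about the two matrices and branch, and choose one of `r + 1` continuations
uniformly at random. -/
inductive Alg (K : Type u) [Field K] (n : ℕ) : Type u
  | stop : Alg K n
  | read (i : Fin n) (next : Alg K n) : Alg K n
  | write (i : Fin n) (row : Fin n → Operand K n) (next : Alg K n) : Alg K n
  | mul (f h : Operand K n) (next : Alg K n) : Alg K n
  | div (f h : Operand K n) (next : Alg K n) : Alg K n
  | ask (q : Matrix (Fin n) (Fin n) K → Matrix (Fin n) (Fin n) K → Prop) (yes no : Alg K n) :
      Alg K n
  | choose (r : ℕ) (next : Fin (r + 1) → Alg K n) : Alg K n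

section

variable {K : Type u} [Field K] {n : ℕ}

/-- The algorithm uses only operands which can be used at the time, if it starts when the rows in
`R` have been read and the rows in `W` are closed. -/
def Alg.Legal : Alg K n → Finset (Fin n) → Finset (Fin n) → Prop
  | .stop, _, _ => True
  | .read i next, R, W => next.Legal (insert i R) W
  | .write i row next, R, W => (∀ k, (row k).Usable R W) ∧ next.Legal R (insert i W)
  | .mul f h next, R, W => f.Usable R W ∧ h.Usable R W ∧ next.Legal R W
  | .div f h next, R, W => f.Usable R W ∧ h.Usable R W ∧ next.Legal R W
  | .ask _ yes no, R, W => yes.Legal R W ∧ no.Legal R W
  | .choose _ next, R, W => ∀ i, (next i).Legal R W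

open Classical in
/-- The probability that, on the input `A, B`, the algorithm writes all rows of the product `A B`
(and everything it writes is correct), never divides by `0`, and satisfies `E T w`, where `T` is the
number of its multiplications and divisions and `w` the largest number of rows which are open at
the same time. Here `g 0, …, g (l - 1)` are the results obtained so far, the rows in `R` have been
read, the rows in `W` have been written and `w` is the largest number of open rows so far. -/
noncomputable def Alg.pr (A B : Matrix (Fin n) (Fin n) K) (E : ℕ → ℕ → Prop) :
    Alg K n → ℕ → (ℕ → K) → Finset (Fin n) → Finset (Fin n) → ℕ → ℝ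
  | .stop, l, _, _, W, w => if W = univ ∧ E l w then 1 else 0
  | .read i next, l, g, R, W, w =>
      next.pr A B E l g (insert i R) W (max w (insert i R \ W).card)
  | .write i row next, l, g, R, W, w =>
      if ∀ k, (row k).val A B l g = (A * B) i k then next.pr A B E l g R (insert i W) w else 0
  | .mul f h next, l, g, R, W, w =>
      next.pr A B E (l + 1) (Function.update g l (f.val A B l g * h.val A B l g)) R W w
  | .div f h next, l, g, R, W, w => if h.val A B l g = 0 then 0 else
      next.pr A B E (l + 1) (Function.update g l (f.val A B l g / h.val A B l g)) R W w
  | .ask q yes no, l, g, R, W, w =>
      if q A B then yes.pr A B E l g R W w else no.pr A B E l g R W w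
  | .choose r next, l, g, R, W, w => (∑ i, (next i).pr A B E l g R W w) / (r + 1)

/-- The probability that the algorithm, on the input `A, B`, computes `A B` and satisfies `E T w`,
where `T` is the number of its multiplications and divisions and `w` the largest number of rows
which are open at the same time. -/
noncomputable def Alg.prob (t : Alg K n) (A B : Matrix (Fin n) (Fin n) K) (E : ℕ → ℕ → Prop) : ℝ :=
  t.pr A B E 0 0 ∅ ∅ 0

end

end Pool.Agent.L5helper60.LA
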