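import Pool.Agent.L5helper60.LA.Defs

set_option autoImplicit false

/-!
# Rational functions: specialisation, partial derivatives, transcendence degree
-/

namespace Pool.Agent.L5helper60.LA

open MvPolynomial Finset

universe u

section

variable {K : Type u} [Field K] {ι : Type} [DecidableEq ι]

/-- rational functions -/
abbrev RF (K : Type u) [Field K] (ι : Type) := FractionRing (MvPolynomial ι K)

/-- the variables -/
noncomputable def xv (K : Type u) [Field K] {ι : Type} (i : ι) : RF K ι :=
  algebraMap (MvPolynomial ι K) (RF K ι) (X i)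

/-- `p ↦ p + ε ∂ᵢ p` on polynomials. -/
noncomputable def phi0 (K : Type u) [Field K] {ι : Type} [DecidableEq ι] (i : ι) :
    MvPolynomial ι K →+* DualNumber (RF K ι) :=
  eval₂Hom ((TrivSqZeroExt.inlHom (RF K ι) (RF K ι)).comp (algebraMap K (RF K ι)))
    (fun j => TrivSqZeroExt.inl (xv K j) + if j = i then DualNumber.eps else 0)

lemma fst_phi0 (i : ι) (p : MvPolynomial ι K) :
    (phi0 K i p).fst = algebraMap (MvPolynomial ι K) (RF K ι) p := by
  have h : ((TrivSqZeroExt.fstHom (RF K ι) (RF K ι) (RF K ι)).toRingHom.comp (phi0 K i)) =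
      algebraMap (MvPolynomial ι K) (RF K ι) := by
    refine MvPolynomial.ringHom_ext ?_ ?_
    · intro c
      simp only [phi0, RingHom.comp_apply, coe_eval₂Hom, eval₂_C]
      simp [IsScalarTower.algebraMap_apply K (MvPolynomial ι K) (RF K ι)]
    · intro j
      simp only [phi0, RingHom.comp_apply, coe_eval₂Hom, eval₂_X]
      by_cases hj : j = i <;> simp [hj, xv]
  exact congrArg (fun f => f p) h

lemma isUnit_phi0 (i : ι) (y : nonZeroDivisors (MvPolynomial ι K)) : IsUnit (phi0 K i y) := by
  rw [TrivSqZeroExt.isUnit_iff_isUnit_fst, fst_phi0]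
  exact IsLocalization.map_units (RF K ι) y

/-- `z ↦ z + ε ∂ᵢ z` on rational functions. -/
noncomputable def phi (i : ι) : RF K ι →+* DualNumber (RF K ι) :=
  IsLocalization.lift (M := nonZeroDivisors (MvPolynomial ι K)) (isUnit_phi0 i)

lemma phi_algebraMap (i : ι) (p : MvPolynomial ι K) :
    phi i (algebraMap (MvPolynomial ι K) (RF K ι) p) = phi0 K i p :=
  IsLocalization.lift_eq _ _

lemma fst_phi (i : ι) (z : RF K ι) : (phi i z).fst = z := by
  have h : ((TrivSqZeroExt.fstHom (RF K ι) (RF K ι) (RF K ι)).toRingHom.comp (phi i)) =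
      RingHom.id (RF K ι) := by
    refine IsLocalization.ringHom_ext (nonZeroDivisors (MvPolynomial ι K)) ?_
    refine RingHom.ext fun p => ?_
    simp only [RingHom.comp_apply, phi_algebraMap]
    exact fst_phi0 i _
  exact congrArg (fun f => f z) h

/-- The `i`-th partial derivative of a rational function. -/
noncomputable def dv (i : ι) (z : RF K ι) : RF K ι := (phi i z).snd

lemma dv_add (i : ι) (a b : RF K ι) : dv i (a + b) = dv i a + dv i b := by
  show (phi i (a + b)).snd = (phi i a).snd + (phi i b).snd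
  rw [map_add, TrivSqZeroExt.snd_add]

lemma dv_mul (i : ι) (a b : RF K ι) : dv i (a * b) = dv i a * b + a * dv i b := by
  show (phi i (a * b)).snd = (phi i a).snd * b + a * (phi i b).snd
  rw [map_mul, TrivSqZeroExt.snd_mul, fst_phi, fst_phi, smul_eq_mul,
    MulOpposite.smul_eq_mul_unop, MulOpposite.unop_op, add_comm]

lemma dv_zero (i : ι) : dv (K := K) i 0 = 0 := by
  show (phi i 0).snd = 0
  rw [map_zero, TrivSqZeroExt.snd_zero]

lemma dv_const (i : ι) (c : K) : dv i (algebraMap K (RF K ι) c) = 0 := by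
  rw [dv, IsScalarTower.algebraMap_apply K (MvPolynomial ι K) (RF K ι), phi_algebraMap]
  have : algebraMap K (MvPolynomial ι K) c = C c := rfl
  rw [this]
  simp [phi0]

lemma dv_sum {α : Type*} (i : ι) (s : Finset α) (z : α → RF K ι) :
    dv i (∑ a ∈ s, z a) = ∑ a ∈ s, dv i (z a) := by
  classical
  induction s using Finset.induction_on with
  | empty => simp [dv_zero]
  | insert a s ha ih => rw [sum_insert ha, sum_insert ha, dv_add, ih]

lemma dv_const_mul (i : ι) (c : K) (z : RF K ι) :
    dv i (algebraMap K (RF K ι) c * z) = algebraMap K (RF K ι) c * dv i z := by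
  rw [dv_mul, dv_const, zero_mul, zero_add]

lemma dv_xv (i j : ι) : dv i (xv K j) = if j = i then 1 else 0 := by
  rw [dv, xv, phi_algebraMap]
  by_cases h : j = i <;> simp [phi0, h]

lemma dv_div (i : ι) (a b : RF K ι) (hb : b ≠ 0) :
    dv i (a / b) = (dv i a - (a / b) * dv i b) / b := by
  have h1 : a = (a / b) * b := by field_simp
  have h2 := dv_mul i (a / b) b
  rw [← h1] at h2
  rw [eq_div_iff hb, h2]
  ring

/-- The derivative of a polynomial. -/
lemma dv_algebraMap (i : ι) (p : MvPolynomial ι K) :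
    dv i (algebraMap (MvPolynomial ι K) (RF K ι) p) =
      algebraMap (MvPolynomial ι K) (RF K ι) (pderiv i p) := by
  induction p using MvPolynomial.induction_on with
  | C a =>
    have h := dv_const (K := K) i a
    rw [IsScalarTower.algebraMap_apply K (MvPolynomial ι K) (RF K ι)] at h
    change dv i ((algebraMap (MvPolynomial ι K) (RF K ι)) (C a)) = 0 at h
    rw [h, pderiv_C, map_zero]
  | add p q hp hq => rw [map_add, map_add, dv_add, hp, hq, map_add]
  | mul_X p j hp =>
    have hX : dv i (algebraMap (MvPolynomial ι K) (RF K ι) (X j)) =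
        algebraMap (MvPolynomial ι K) (RF K ι) (pderiv i (X j)) := by
      have := dv_xv (K := K) i j
      rw [xv] at this
      rw [this]
      by_cases h : j = i
      · subst h
        rw [if_pos rfl, pderiv_X_self, map_one]
      · rw [if_neg h, pderiv_X_of_ne h, map_zero]
    rw [map_mul, dv_mul, hp, hX, Derivation.leibniz, map_add, smul_eq_mul, smul_eq_mul, map_mul,
      map_mul]
    ring

/-- A polynomial without the variable `i` has derivative zero. -/
lemma dv_algebraMap_eq_zero (i : ι) (p : MvPolynomial ι K) (h : i ∉ p.vars) :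
    dv i (algebraMap (MvPolynomial ι K) (RF K ι) p) = 0 := by
  rw [dv_algebraMap, pderiv_eq_zero_of_notMem_vars h, map_zero]

/-! ### Specialisation -/

/-- `c` is the value of the rational function `z` at the point `v`. -/
def Sp (v : ι → K) (z : RF K ι) (c : K) : Prop :=
  ∃ p q : MvPolynomial ι K, eval v q ≠ 0 ∧
    z * algebraMap (MvPolynomial ι K) (RF K ι) q = algebraMap (MvPolynomial ι K) (RF K ι) p ∧
    c * eval v q = eval v p

omit [DecidableEq ι] in
lemma inj_alg : Function.Injective (algebraMap (MvPolynomial ι K) (RF K ι)) :=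
  IsFractionRing.injective _ _

variable {v : ι → K}

omit [DecidableEq ι] in
lemma Sp.add {z z' : RF K ι} {c c' : K} (h : Sp v z c) (h' : Sp v z' c') :
    Sp v (z + z') (c + c') := by
  obtain ⟨p, q, hq, h1, h2⟩ := h
  obtain ⟨p', q', hq', h1', h2'⟩ := h'
  refine ⟨p * q' + p' * q, q * q', by rw [map_mul]; exact mul_ne_zero hq hq', ?_, ?_⟩
  · rw [map_mul, map_add, map_mul, map_mul, ← h1, ← h1']; ring
  · rw [map_mul, map_add, map_mul, map_mul, ← h2, ← h2']; ring

omit [DecidableEq ι] in
lemma Sp.mul {z z' : RF K ι} {c c' : K} (h : Sp v z c) (h' : Sp v z' c') :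
    Sp v (z * z') (c * c') := by
  obtain ⟨p, q, hq, h1, h2⟩ := h
  obtain ⟨p', q', hq', h1', h2'⟩ := h'
  refine ⟨p * p', q * q', by rw [map_mul]; exact mul_ne_zero hq hq', ?_, ?_⟩
  · rw [map_mul, map_mul, ← h1, ← h1']; ring
  · rw [map_mul, map_mul, ← h2, ← h2']; ring

omit [DecidableEq ι] in
lemma Sp.const (c : K) : Sp v (algebraMap K (RF K ι) c) c := by
  refine ⟨C c, 1, by simp, ?_, by simp⟩
  rw [map_one, mul_one]
  exact IsScalarTower.algebraMap_apply K (MvPolynomial ι K) (RF K ι) _

omit [DecidableEq ι] in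
lemma Sp.zero' : Sp v (0 : RF K ι) 0 := by
  have := Sp.const (v := v) (0 : K)
  rwa [map_zero] at this

omit [DecidableEq ι] in
lemma Sp.sum {α : Type*} (s : Finset α) {z : α → RF K ι} {c : α → K}
    (h : ∀ i ∈ s, Sp v (z i) (c i)) : Sp v (∑ i ∈ s, z i) (∑ i ∈ s, c i) := by
  classical
  induction s using Finset.induction_on with
  | empty => simpa using Sp.zero'
  | insert i s hi ih =>
    rw [Finset.sum_insert hi, Finset.sum_insert hi]
    exact (h i (Finset.mem_insert_self i s)).add
      (ih fun j hj => h j (Finset.mem_insert_of_mem hj))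

omit [DecidableEq ι] in
lemma Sp.var (i : ι) : Sp v (xv K i) (v i) := by
  refine ⟨X i, 1, by simp, ?_, by simp⟩
  rw [map_one, mul_one]
  rfl

omit [DecidableEq ι] in
lemma Sp.zero {c : K} (h : Sp v (0 : RF K ι) c) : c = 0 := by
  obtain ⟨p, q, hq, h1, h2⟩ := h
  rw [zero_mul] at h1
  have hp : p = 0 := inj_alg (by rw [← h1, map_zero])
  rw [hp, map_zero] at h2
  exact (mul_eq_zero.mp h2).resolve_right hq

omit [DecidableEq ι] in
lemma Sp.div {z z' : RF K ι} {c c' : K} (h : Sp v z c) (h' : Sp v z' c') (hz : z' ≠ 0)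
    (hc : c' ≠ 0) : Sp v (z / z') (c / c') := by
  obtain ⟨p, q, hq, h1, h2⟩ := h
  obtain ⟨p', q', hq', h1', h2'⟩ := h'
  refine ⟨p * q', q * p', ?_, ?_, ?_⟩
  · rw [map_mul, ← h2']
    exact mul_ne_zero hq (mul_ne_zero hc hq')
  · rw [map_mul, map_mul, ← h1, ← h1']
    field_simp
  · rw [map_mul, map_mul, ← h2, ← h2']
    field_simp

omit [DecidableEq ι] in
lemma Sp.nz {z : RF K ι} (hz : z ≠ 0) : ∃ h : MvPolynomial ι K, h ≠ 0 ∧ ∀ (v : ι → K) (c : K),
    eval v h ≠ 0 → Sp v z c → c ≠ 0 := by
  obtain ⟨p₀, q₀, hq₀, rfl⟩ := IsFractionRing.div_surjective (A := MvPolynomial ι K) z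
  have hp₀ : p₀ ≠ 0 := by
    rintro rfl
    simp at hz
  have hq' : algebraMap (MvPolynomial ι K) (RF K ι) q₀ ≠ 0 := by
    intro h
    exact nonZeroDivisors.ne_zero hq₀ (inj_alg (by rw [h, map_zero]))
  refine ⟨p₀, hp₀, ?_⟩
  rintro v c hev ⟨p, q, hq, h1, h2⟩ rfl
  rw [zero_mul] at h2
  have h3 : p₀ * q = p * q₀ := by
    apply inj_alg
    rw [map_mul, map_mul, ← h1]
    field_simp
  have h4 := congrArg (eval v) h3
  rw [map_mul, map_mul, ← h2, zero_mul] at h4
  exact (mul_ne_zero hev hq) h4

omit [DecidableEq ι] in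
lemma Sp.neg {z : RF K ι} {c : K} (h : Sp v z c) : Sp v (-z) (-c) := by
  have := (Sp.const (v := v) (-1 : K)).mul h
  simpa using this

omit [DecidableEq ι] in
lemma Sp.sub {z z' : RF K ι} {c c' : K} (h : Sp v z c) (h' : Sp v z' c') :
    Sp v (z - z') (c - c') := by
  rw [sub_eq_add_neg, sub_eq_add_neg]
  exact h.add h'.neg

omit [DecidableEq ι] in
/-- A quotient of polynomials has the expected value outside the zero set of a nonzero
polynomial. -/
lemma Sp.quot (p q : MvPolynomial ι K) : ∃ h : MvPolynomial ι K, h ≠ 0 ∧ ∀ v : ι → K,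
    eval v h ≠ 0 → Sp v (algebraMap (MvPolynomial ι K) (RF K ι) p /
      algebraMap (MvPolynomial ι K) (RF K ι) q) (eval v p / eval v q) := by
  by_cases hq : q = 0
  · refine ⟨1, one_ne_zero, fun v _ => ?_⟩
    rw [hq, map_zero, map_zero, div_zero, div_zero]
    exact Sp.zero'
  · refine ⟨q, hq, fun v hv => ⟨p, q, hv, ?_, ?_⟩⟩
    · have hq' : algebraMap (MvPolynomial ι K) (RF K ι) q ≠ 0 := by
        intro h
        exact hq (inj_alg (by rw [h, map_zero]))
      field_simp
    · field_simp

end

/-! ### Transcendence degree -/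

/-- Algebraically independent elements of a field generated by finitely many elements. -/
lemma card_le_of_adjoin {K F : Type*} [Field K] [Field F] [Algebra K F] {α : Type} [Fintype α]
    (y : α → F) (hy : AlgebraicIndependent K y) (S : Finset F)
    (h : ∀ a, y a ∈ IntermediateField.adjoin K (S : Set F)) : Fintype.card α ≤ S.card := by
  classical
  have hind : (AlgebraicIndependent.matroid K F).Indep (Set.range y) := by
    rw [AlgebraicIndependent.matroid_indep_iff]
    exact hy.to_subtype_range
  have hsub : Set.range y ⊆ (AlgebraicIndependent.matroid K F).closure (S : Set F) := by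
    rintro z ⟨a, rfl⟩
    rw [AlgebraicIndependent.matroid_closure_eq, SetLike.mem_coe, Subalgebra.mem_algebraicClosure]
    obtain ⟨r, hr, s, hs, hrs⟩ := IntermediateField.mem_adjoin_iff_div.mp (h a)
    rw [hrs, div_eq_mul_inv]
    exact (isAlgebraic_algebraMap (⟨r, hr⟩ : Algebra.adjoin K (S : Set F))).mul
      (isAlgebraic_algebraMap (⟨s, hs⟩ : Algebra.adjoin K (S : Set F))).inv
  have h1 : (Set.range y).encard ≤ (S : Set F).encard := by
    calc (Set.range y).encard = (AlgebraicIndependent.matroid K F).eRk (Set.range y) :=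
          hind.eRk_eq_encard.symm
      _ ≤ (AlgebraicIndependent.matroid K F).eRk
          ((AlgebraicIndependent.matroid K F).closure (S : Set F)) := Matroid.eRk_mono _ hsub
      _ = (AlgebraicIndependent.matroid K F).eRk (S : Set F) := Matroid.eRk_closure_eq _ _
      _ ≤ (S : Set F).encard := Matroid.eRk_le_encard _ _
  rw [Set.encard_coe_eq_coe_finsetCard, ← Set.image_univ,
    Function.Injective.encard_image hy.injective, Set.encard_univ, ENat.card_eq_coe_fintype_card] at h1
  exact_mod_cast h1

end Pool.Agent.L5helper60.LA
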